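import Mathlib
import Pool.Agent.H15.F8.Targets

/-!
# MP_f8d35d_nt, modules G2 and G3 (helper25), first part: the roots of the cubic
-/

namespace F8

open Polynomial

theorem om2 : om ^ 2 = -1 - om := by linear_combination om_spec

/-- `κ' = 18031 (10 - 129 ω²)`, the conjugate of `κ` -/
theorem ka_mul : ka * (18031 * (10 - 129 * om ^ 2)) = 18031 ^ 3 := by
  unfold ka
  linear_combination (18031 ^ 2 * (-1290) : Qbar) * om_spec + (18031 ^ 2 * 129 ^ 2 : Qbar) * om_cube

theorem ka_ne : ka ≠ 0 := by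
  intro h
  have := ka_mul
  rw [h, zero_mul] at this
  norm_num at this

theorem th_ne : th ≠ 0 := by
  intro h
  have := th_spec
  rw [h] at this
  exact ka_ne (by rw [← this]; norm_num)

/-- `18031 / θ` -/
noncomputable def tb : Qbar := 18031 / th

theorem th_tb : th * tb = 18031 := by
  unfold tb
  rw [mul_div_cancel₀ _ th_ne]

theorem tb_spec : tb ^ 3 = 18031 * (10 - 129 * om ^ 2) := by
  have h1 : (th * tb) ^ 3 = 18031 ^ 3 := by rw [th_tb]
  rw [mul_pow, th_spec, ← ka_mul] at h1
  exact mul_left_cancel₀ ka_ne h1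

/-- the other two roots -/
noncomputable def v2 : Qbar := om * th + om ^ 2 * tb
noncomputable def v3 : Qbar := om ^ 2 * th + om * tb

theorem vt_eq : vt = th + tb := rfl

theorem sum_v : vt + v2 + v3 = 0 := by
  rw [vt_eq]; unfold v2 v3
  linear_combination (th + tb) * om_spec

theorem e2_v : vt * v2 + vt * v3 + v2 * v3 = -54093 := by
  rw [vt_eq]; unfold v2 v3
  linear_combination (th + tb) ^ 2 * om_spec + (th ^ 2 + tb ^ 2) * om_cube
    + (-3) * th_tb + th * tb * (om ^ 2 - om + 1) * om_spec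

theorem e3_v : vt * v2 * v3 = 2686619 := by
  rw [vt_eq]; unfold v2 v3
  have h1 := th_spec
  have h2 := tb_spec
  unfold ka at h1
  linear_combination (exp := 1) h1 + h2 + (th * tb * (th + tb)) * (om ^ 2 - om + 1) * om_spec
    + (th ^ 2 + tb ^ 2) * (th + tb) * om_cube - (18031 * 129 : Qbar) * om_spec

/-- the cubic of `ϑ` splits -/
theorem cubic_split (x : Qbar) :
    x ^ 3 - 54093 * x - 2686619 = (x - vt) * (x - v2) * (x - v3) := by
  linear_combination x ^ 2 * sum_v - x * e2_v + e3_v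

theorem vt_root : vt ^ 3 - 54093 * vt - 2686619 = 0 := by
  rw [cubic_split]; ring

/-- square root of the discriminant -/
theorem disc_v : (vt - v2) * (vt - v3) * (v2 - v3) = 20933991 := by
  rw [vt_eq]; unfold v2 v3
  have h1 := th_spec
  have h2 := tb_spec
  unfold ka at h1
  linear_combination ((-1) * th ^ 3 * om ^ 3 + (3) * th ^ 3 * om ^ 2 + (-2) * th ^ 3 * om
    + (-3) * th ^ 3 + (-1) * th ^ 2 * tb * om ^ 4 + (3) * th ^ 2 * tb * om ^ 3
    + (-3) * th ^ 2 * tb * om ^ 2 + th ^ 2 * tb * om + th * tb ^ 2 * om ^ 4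
    + (-3) * th * tb ^ 2 * om ^ 3 + (3) * th * tb ^ 2 * om ^ 2 + (-1) * th * tb ^ 2 * om
    + tb ^ 3 * om ^ 3 + (-3) * tb ^ 3 * om ^ 2 + (2) * tb ^ 3 * om + (3) * tb ^ 3) * om_spec
    + 3 * (2 * om + 1) * (h1 - h2) + 6977997 * (2 * om - 3) * om_spec

theorem deriv_v : (vt - v2) * (vt - v3) = 3 * vt ^ 2 - 54093 := by
  linear_combination e2_v - 2 * vt * sum_v

theorem root_of (x : Qbar) (h : x ^ 3 - 54093 * x - 2686619 = 0) : x = vt ∨ x = v2 ∨ x = v3 := by
  rw [cubic_split] at h
  rcases mul_eq_zero.1 h with h | h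
  · rcases mul_eq_zero.1 h with h | h
    · left; exact sub_eq_zero.1 h
    · right; left; exact sub_eq_zero.1 h
  · right; right; exact sub_eq_zero.1 h

theorem gam_vt (s : Gam) : s vt = vt ∨ s vt = v2 ∨ s vt = v3 := by
  apply root_of
  have := congrArg s vt_root
  have e1 : s (54093 : Qbar) = 54093 := map_ofNat s 54093
  have e2 : s (2686619 : Qbar) = 2686619 := map_ofNat s 2686619
  rw [map_sub, map_sub, map_mul, map_pow, e1, e2, map_zero] at this
  exact this

theorem vt_ne_v2 : vt ≠ v2 := by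
  intro h
  have := disc_v
  rw [h] at this
  norm_num at this

theorem vt_ne_v3 : vt ≠ v3 := by
  intro h
  have := disc_v
  rw [h] at this
  norm_num at this

theorem v2_ne_v3 : v2 ≠ v3 := by
  intro h
  have := disc_v
  rw [h] at this
  norm_num at this

end F8
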