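import Mathlib
import Pool.Agent.H25.F8.GA

/-!
# MP_f8d35d_nt, modules G2 and G3 (helper25), second part: the field `KK`
-/

namespace F8

open Polynomial

/-- the cubic over `ℤ` -/
noncomputable def fZ : ℤ[X] := X ^ 3 - C 54093 * X - C 2686619

theorem fZ_monic : fZ.Monic := by
  unfold fZ; monicity!

theorem fZ_natDegree : fZ.natDegree = 3 := by
  unfold fZ; compute_degree!

theorem fZ_coeff (n : ℕ) (hn : n < 3) : fZ.coeff n = if n = 0 then -2686619 else
    if n = 1 then -54093 else 0 := by
  unfold fZ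
  simp only [coeff_sub, coeff_X_pow, coeff_C_mul, coeff_X, coeff_C]
  interval_cases n <;> simp

theorem fZ_irr : Irreducible fZ := by
  have hp : (Ideal.span {(13 : ℤ)}).IsPrime := by
    rw [Ideal.span_singleton_prime (by norm_num)]
    exact Int.prime_iff_natAbs_prime.2 (by norm_num)
  have hE : fZ.IsEisensteinAt (Ideal.span {(13 : ℤ)}) := by
    refine ⟨?_, ?_, ?_⟩
    · rw [fZ_monic.leadingCoeff]
      exact fun h => hp.ne_top ((Ideal.eq_top_iff_one _).2 h)
    · intro n hn
      rw [fZ_natDegree] at hn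
      rw [fZ_coeff n hn, Ideal.mem_span_singleton]
      interval_cases n <;> norm_num
    · rw [fZ_coeff 0 (by norm_num), if_pos rfl, Ideal.span_singleton_pow,
        Ideal.mem_span_singleton]
      norm_num
  exact hE.irreducible hp fZ_monic.isPrimitive (by rw [fZ_natDegree]; norm_num)

/-- the cubic over `ℚ` -/
noncomputable def fQ : ℚ[X] := fZ.map (Int.castRingHom ℚ)

theorem fQ_monic : fQ.Monic := fZ_monic.map _

theorem fQ_irr : Irreducible fQ :=
  (fZ_monic.irreducible_iff_irreducible_map_fraction_map (K := ℚ)).1 fZ_irr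

theorem fQ_natDegree : fQ.natDegree = 3 := by
  unfold fQ
  rw [fZ_monic.natDegree_map, fZ_natDegree]

theorem aeval_fZ {A : Type*} [CommRing A] (x : A) :
    eval₂ (Int.castRingHom A) x fZ = x ^ 3 - 54093 * x - 2686619 := by
  unfold fZ
  rw [eval₂_sub, eval₂_sub, eval₂_mul, eval₂_pow, eval₂_X, eval₂_C, eval₂_C]
  simp

theorem aeval_fQ (x : Qbar) : aeval x fQ = x ^ 3 - 54093 * x - 2686619 := by
  unfold fQ
  rw [← aeval_fZ x, aeval_def, eval₂_map]
  congr 1

theorem minpoly_vt : minpoly ℚ vt = fQ := by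
  refine (minpoly.eq_of_irreducible_of_monic fQ_irr ?_ fQ_monic).symm
  rw [aeval_fQ, vt_root]

theorem vt_int : IsIntegral ℤ vt :=
  ⟨fZ, fZ_monic, by
    have e : (algebraMap ℤ Qbar) = Int.castRingHom Qbar := Subsingleton.elim _ _
    rw [e, aeval_fZ, vt_root]⟩

theorem vt_intQ : IsIntegral ℚ vt := vt_int.tower_top

theorem vt_mem : vt ∈ KK := IntermediateField.subset_adjoin _ _ (by simp)

theorem finrank_KK : Module.finrank ℚ KK = 3 := by
  have := IntermediateField.adjoin.finrank vt_intQ
  rw [minpoly_vt, fQ_natDegree] at this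
  exact this

instance finite_KK : FiniteDimensional ℚ KK :=
  IntermediateField.adjoin.finiteDimensional vt_intQ

instance nf_KK : NumberField KK where
  to_charZero := inferInstance
  to_finiteDimensional := finite_KK

theorem v23_mem : v2 ∈ KK ∧ v3 ∈ KK := by
  have h0 : vt ^ 2 - 18031 ≠ 0 := by
    intro h
    have h1 := disc_v
    rw [deriv_v] at h1
    have h2 : (3 : Qbar) * vt ^ 2 - 54093 = 0 := by linear_combination 3 * h
    rw [h2, zero_mul] at h1
    norm_num at h1
  have h1 : v2 - v3 = 6977997 / (vt ^ 2 - 18031) := by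
    rw [eq_div_iff h0]
    have h1 := disc_v
    rw [deriv_v] at h1
    linear_combination (1 / 3) * h1
  have h2 : v2 - v3 ∈ KK := by
    rw [h1]
    refine KK.div_mem ?_ ?_
    · exact_mod_cast KK.natCast_mem 6977997
    · exact KK.sub_mem (by exact_mod_cast KK.pow_mem vt_mem 2)
        (by exact_mod_cast KK.natCast_mem 18031)
  have h3 : v2 + v3 ∈ KK := by
    have : v2 + v3 = -vt := by linear_combination sum_v
    rw [this]
    exact KK.neg_mem vt_mem
  have h2' : (2 : Qbar) ∈ KK := by exact_mod_cast KK.natCast_mem 2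
  constructor
  · have : v2 = ((v2 + v3) + (v2 - v3)) / 2 := by ring
    rw [this]
    exact KK.div_mem (KK.add_mem h3 h2) h2'
  · have : v3 = ((v2 + v3) - (v2 - v3)) / 2 := by ring
    rw [this]
    exact KK.div_mem (KK.sub_mem h3 h2) h2'

theorem normal_KK' : @Normal ℚ KK _ _ (IntermediateField.algebra' KK) := by
  rw [IntermediateField.normal_iff_forall_map_le']
  intro σ
  unfold KK
  rw [IntermediateField.adjoin_map, IntermediateField.adjoin_le_iff]
  rintro x ⟨y, hy, rfl⟩
  rw [Set.mem_singleton_iff.1 hy]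
  rcases gam_vt σ with h | h | h
  · change σ vt ∈ KK
    rw [h]; exact vt_mem
  · change σ vt ∈ KK
    rw [h]; exact v23_mem.1
  · change σ vt ∈ KK
    rw [h]; exact v23_mem.2

theorem galois_KK' : @IsGalois ℚ _ KK _ (IntermediateField.algebra' KK) := by
  let _ : Algebra ℚ KK := IntermediateField.algebra' KK
  have := normal_KK'
  exact IsGalois.mk

theorem galois_KK : IsGalois ℚ KK := by
  have e : (IntermediateField.algebra' KK : Algebra ℚ KK) = DivisionRing.toRatAlgebra :=
    Subsingleton.elim _ _
  have := galois_KK'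
  rw [e] at this
  exact this

instance normal_HK : HK.Normal := by
  have := galois_KK'
  exact IsGalois.fixingSubgroup_normal_of_isGalois KK

end F8
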