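import Mathlib
import Pool.Agent.H25.F8.GB

/-!
# MP_f8d35d_nt, module G2 (helper25): the cyclic cubic field as a group theoretic setup
-/

namespace F8

open Polynomial

theorem mem_HK (s : Gam) : s ∈ HK ↔ s vt = vt := by
  constructor
  · intro h
    exact (IntermediateField.mem_fixingSubgroup_iff _ _).1 h vt vt_mem
  · intro h
    rw [IntermediateField.mem_fixingSubgroup_iff]
    refine fix_adjoin _ s ?_
    rintro a (rfl | rfl)
    exact h

theorem om_prim : IsPrimitiveRoot om 3 := by
  refine IsPrimitiveRoot.mk_of_lt _ (by norm_num) om_cube ?_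
  intro l hl hl3
  interval_cases l
  · rw [pow_one]; exact om_ne_one
  · intro h
    apply om_ne_one
    have := om_cube
    rw [pow_succ, h, one_mul] at this
    exact this

theorem om_not_mem : om ∉ KK := by
  intro h
  have h1 : IntermediateField.adjoin ℚ {om} ≤ KK := by
    rw [IntermediateField.adjoin_simple_le_iff]; exact h
  have h2 : IsIntegral ℚ om := om_prim.isIntegral (by norm_num) |>.tower_top
  have h3 := IntermediateField.adjoin.finrank h2
  rw [← cyclotomic_eq_minpoly_rat om_prim (by norm_num), natDegree_cyclotomic] at h3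
  have h4 := IntermediateField.finrank_dvd_of_le_right h1
  have h5 : Module.finrank ℚ KK = 3 := finrank_KK
  have h6 : Nat.totient 3 = 2 := by decide
  rw [h3, h6] at h4
  have h7 : (2 : ℕ) ∣ 3 := by
    rw [← h5]; exact h4
  omega

/-- the complex conjugation type automorphism -/
theorem exists_tau : ∃ s ∈ HK, s om = om ^ 2 := by
  by_contra hcon
  push Not at hcon
  apply om_not_mem
  rw [mem_iff_fixed]
  intro g hg
  have h1 : g ∈ HK := by
    rw [mem_HK]
    exact hg _ vt_mem
  rcases gam_om g with h | h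
  · exact h
  · exact absurd h (hcon g h1)

theorem gam_tb (s : Gam) : s tb = 18031 / s th := by
  unfold tb
  rw [map_div₀]
  congr 1
  exact map_ofNat s 18031

theorem om_om2 : (om ^ 2) ^ 2 = om := by linear_combination om * om_cube

theorem om_inv : om * om ^ 2 = 1 := by linear_combination om_cube

/-- the action on `θ` of the automorphisms fixing `ω` -/
theorem gam_th (s : Gam) (h : s om = om) : (s th = th ∧ s vt = vt) ∨
    (s th = om * th ∧ s vt = v2) ∨ (s th = om ^ 2 * th ∧ s vt = v3) := by
  have h1 : (s th) ^ 3 = th ^ 3 := by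
    rw [← map_pow, th_spec]
    unfold ka
    rw [map_mul, map_sub, map_mul, h]
    simp only [map_ofNat]
  have h2 : (s th - th) * ((s th - om * th) * (s th - om ^ 2 * th)) = 0 := by
    have e : (s th - th) * ((s th - om * th) * (s th - om ^ 2 * th))
        = (s th) ^ 3 - th ^ 3 := by
      linear_combination (-(s th) ^ 2 * th + s th * th ^ 2) * om_spec
        + (s th * th ^ 2 - th ^ 3) * om_cube
    rw [e, h1, sub_self]
  rcases mul_eq_zero.1 h2 with h3 | h3
  · left
    have h4 : s th = th := sub_eq_zero.1 h3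
    refine ⟨h4, ?_⟩
    rw [vt_eq, map_add, gam_tb, h4]; rfl
  · right
    rcases mul_eq_zero.1 h3 with h3 | h3
    · left
      have h4 : s th = om * th := sub_eq_zero.1 h3
      refine ⟨h4, ?_⟩
      rw [vt_eq, map_add, gam_tb, h4]
      unfold v2 tb
      have := th_ne
      have := om_ne_zero
      rw [div_mul_eq_div_div]
      field_simp
      linear_combination (-18031 : Qbar) * om_cube
    · right
      have h4 : s th = om ^ 2 * th := sub_eq_zero.1 h3
      refine ⟨h4, ?_⟩
      rw [vt_eq, map_add, gam_tb, h4]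
      unfold v3 tb
      have := th_ne
      have := om_ne_zero
      field_simp
      linear_combination (-18031 : Qbar) * om_cube

theorem exists_sig : ∃ s : Gam, s om = om ∧ s th = om * th := by
  -- an automorphism with `vt ↦ v2`
  obtain ⟨s, hs⟩ : ∃ s : Gam, s vt = v2 := by
    have h1 : IsConjRoot ℚ vt v2 := by
      unfold IsConjRoot
      rw [minpoly_vt]
      refine (minpoly.eq_of_irreducible_of_monic fQ_irr ?_ fQ_monic)
      rw [aeval_fQ, cubic_split]; ring
    obtain ⟨s, hs⟩ := (isConjRoot_iff_exists_algEquiv).1 h1.symm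
    exact ⟨s, hs⟩
  obtain ⟨s, hs, hso⟩ : ∃ s : Gam, s vt = v2 ∧ s om = om := by
    rcases gam_om s with h | h
    · exact ⟨s, hs, h⟩
    · obtain ⟨t, ht, hto⟩ := exists_tau
      refine ⟨s * t, ?_, ?_⟩
      · rw [AlgEquiv.mul_apply, (mem_HK t).1 ht, hs]
      · rw [AlgEquiv.mul_apply, hto, map_pow, h, om_om2]
  refine ⟨s, hso, ?_⟩
  rcases gam_th s hso with ⟨_, h⟩ | ⟨h, _⟩ | ⟨_, h⟩
  · rw [h] at hs; exact absurd hs vt_ne_v2
  · exact h
  · rw [h] at hs; exact absurd hs.symm v2_ne_v3

/-- **G2.** -/
theorem ksetup : KSetupStmt := by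
  refine ⟨⟨?_, exists_tau, th_ne, ⟨180310, -2325999, ?_⟩⟩, ⟨?_, ?_, one_ne_zero, ⟨1, 0, ?_⟩⟩,
    normal_HK, exists_sig, ?_⟩
  · intro s hs
    rw [mem_HK]
    constructor
    · intro h
      rcases gam_th s hs with ⟨h1, _⟩ | ⟨_, h1⟩ | ⟨_, h1⟩
      · exact h1
      · rw [h] at h1; exact absurd h1 vt_ne_v2
      · rw [h] at h1; exact absurd h1 vt_ne_v3
    · intro h
      rw [vt_eq, map_add, gam_tb, h]; rfl
  · rw [th_spec]
    unfold ka
    push_cast
    ring
  · intro s _
    simp
  · obtain ⟨s, _, hs⟩ := exists_tau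
    exact ⟨s, Subgroup.mem_top _, hs⟩
  · push_cast; ring
  · intro σ hso hst r
    have hsv : σ vt = v2 := by
      rcases gam_th σ hso with ⟨h1, _⟩ | ⟨_, h1⟩ | ⟨h1, _⟩
      · exfalso
        rw [hst] at h1
        have : (om - 1) * th = 0 := by linear_combination h1
        rcases mul_eq_zero.1 this with h | h
        · exact om_ne_one (sub_eq_zero.1 h)
        · exact th_ne h
      · exact h1
      · exfalso
        rw [hst] at h1
        have : om * (1 - om) * th = 0 := by linear_combination h1
        rcases mul_eq_zero.1 this with h | h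
        · rcases mul_eq_zero.1 h with h | h
          · exact om_ne_zero h
          · exact om_ne_one (sub_eq_zero.1 h).symm
        · exact th_ne h
    have hstb : σ tb = om ^ 2 * tb := by
      rw [gam_tb, hst]
      unfold tb
      have := th_ne
      have := om_ne_zero
      field_simp
      linear_combination (-1 : Qbar) * om_cube
    have hsv2 : σ v2 = v3 := by
      unfold v2 v3
      rw [map_add, map_mul, map_mul, map_pow, hso, hst, hstb]
      linear_combination (om * tb) * om_cube
    have hfin : ∀ ρ : Gam, r vt = ρ vt → ∃ h ∈ HK, r = ρ * h := by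
      intro ρ hρ
      refine ⟨ρ⁻¹ * r, ?_, by rw [mul_inv_cancel_left]⟩
      rw [mem_HK, AlgEquiv.mul_apply, hρ, ← AlgEquiv.mul_apply, inv_mul_cancel,
        AlgEquiv.one_apply]
    rcases gam_vt r with h | h | h
    · obtain ⟨t, ht, hr⟩ := hfin 1 (by rw [h, AlgEquiv.one_apply])
      exact ⟨0, by norm_num, t, ht, by rw [pow_zero]; exact hr⟩
    · obtain ⟨t, ht, hr⟩ := hfin σ (by rw [h, hsv])
      exact ⟨1, by norm_num, t, ht, by rw [pow_one]; exact hr⟩
    · obtain ⟨t, ht, hr⟩ := hfin (σ ^ 2) (by rw [h, pow_two, AlgEquiv.mul_apply, hsv, hsv2])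
      exact ⟨2, by norm_num, t, ht, hr⟩

end F8
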