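import Mathlib
import Pool.Agent.H25.F8.GB

/-!
# MP_f8d35d_nt, module G3 (helper25): the discriminant of `KK`
-/

namespace F8

open Polynomial NumberField

/-- `ϑ` as an element of the ring of integers -/
noncomputable def vI : 𝓞 KK := ⟨⟨vt, vt_mem⟩, by
  refine ⟨fZ, fZ_monic, ?_⟩
  refine Eq.trans (congrArg (fun f => eval₂ f _ fZ) (Subsingleton.elim _ (Int.castRingHom KK))) ?_
  change eval₂ (Int.castRingHom KK) _ fZ = 0
  rw [aeval_fZ]
  apply Subtype.ext
  exact vt_root⟩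

theorem vI_root : vI ^ 3 = 54093 * vI + 2686619 := by
  apply RingOfIntegers.ext
  apply Subtype.ext
  change vt ^ 3 = 54093 * vt + 2686619
  linear_combination vt_root

theorem dvd_discr_KK (p : ℕ) (hp : p.Prime) (h1 : (p : ℤ) ∣ 54093) (h2 : (p : ℤ) ∣ 2686619)
    (h3 : ¬ ((p : ℤ) ^ 2 ∣ 2686619)) : (p : ℤ) ∣ NumberField.discr KK := by
  by_contra hcon
  have hpz : Prime (p : ℤ) := Nat.prime_iff_prime_int.1 hp
  rw [NumberField.not_dvd_discr_iff_forall_mem KK (𝓞 KK) hpz] at hcon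
  -- a prime above `p`
  have hmax : (Ideal.span {(p : ℤ)}).IsMaximal :=
    PrincipalIdealRing.isMaximal_of_irreducible hpz.irreducible
  obtain ⟨⟨P, hPp, hPl⟩⟩ : Nonempty ((Ideal.span {(p : ℤ)}).primesOver (𝓞 KK)) := inferInstance
  have hpP : (((p : ℤ) : 𝓞 KK)) ∈ P := by
    have := hPl.over
    have h4 : (p : ℤ) ∈ Ideal.span {(p : ℤ)} := Ideal.mem_span_singleton_self _
    rw [this] at h4
    exact h4
  have hun := hcon P hPp hpP
  have hnd := (not_dvd_differentIdeal_iff (A := ℤ) (B := 𝓞 KK) (P := P)).2 hun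
  apply hnd
  have hpne : Ideal.span {(p : ℤ)} ≠ ⊥ := by
    rw [Ne, Ideal.span_singleton_eq_bot]
    exact hpz.ne_zero
  have := pow_sub_one_dvd_differentIdeal (A := ℤ) (B := 𝓞 KK) (p := Ideal.span {(p : ℤ)}) P 2 hpne ?_
  · simpa using this
  · rw [Ideal.dvd_iff_le, Ideal.map_span, Set.image_singleton, Ideal.span_singleton_le_iff_mem]
    -- `p ∈ P ^ 2`
    have hvP : vI ∈ P := by
      have h5 : vI ^ 3 ∈ P := by
        rw [vI_root]
        obtain ⟨a, ha⟩ := h1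
        obtain ⟨b, hb⟩ := h2
        have e1 : (54093 : 𝓞 KK) = ((p : ℤ) : 𝓞 KK) * ((a : ℤ) : 𝓞 KK) := by
          rw [← Int.cast_mul, ← ha]; norm_num
        have e2 : (2686619 : 𝓞 KK) = ((p : ℤ) : 𝓞 KK) * ((b : ℤ) : 𝓞 KK) := by
          rw [← Int.cast_mul, ← hb]; norm_num
        rw [e1, e2]
        refine P.add_mem ?_ (P.mul_mem_right _ hpP)
        rw [mul_assoc]
        exact P.mul_mem_right _ hpP
      exact hPp.mem_of_pow_mem _ h5
    have h6 : (2686619 : 𝓞 KK) ∈ P ^ 2 := by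
      have e : (2686619 : 𝓞 KK) = vI ^ 2 * vI - 54093 * vI := by
        have := vI_root
        linear_combination -this
      rw [e]
      refine (P ^ 2).sub_mem ((P ^ 2).mul_mem_right _ (Ideal.pow_mem_pow hvP 2)) ?_
      obtain ⟨a, ha⟩ := h1
      have e1 : (54093 : 𝓞 KK) * vI = ((a : ℤ) : 𝓞 KK) * (((p : ℤ) : 𝓞 KK) * vI) := by
        have : (54093 : 𝓞 KK) = ((p : ℤ) : 𝓞 KK) * ((a : ℤ) : 𝓞 KK) := by
          rw [← Int.cast_mul, ← ha]; norm_num
        rw [this]; ring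
      rw [e1]
      refine (P ^ 2).mul_mem_left _ ?_
      rw [pow_two]
      exact Ideal.mul_mem_mul hpP hvP
    obtain ⟨b, hb⟩ := h2
    have hbp : IsCoprime (p : ℤ) b := by
      rw [Int.isCoprime_iff_gcd_eq_one]
      have hnb : ¬ ((p : ℤ) ∣ b) := by
        rintro ⟨c, rfl⟩
        apply h3
        exact ⟨c, by rw [hb]; ring⟩
      have : IsCoprime (p : ℤ) b := (Prime.coprime_iff_not_dvd hpz).2 hnb
      exact Int.isCoprime_iff_gcd_eq_one.1 this
    obtain ⟨u, v, huv⟩ := hbp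
    have e3 : (algebraMap ℤ (𝓞 KK)) (p : ℤ) = ((u : ℤ) : 𝓞 KK) * (((p : ℤ) : 𝓞 KK) * ((p : ℤ) : 𝓞 KK))
        + ((v : ℤ) : 𝓞 KK) * 2686619 := by
      have e4 : (2686619 : 𝓞 KK) = ((p : ℤ) : 𝓞 KK) * ((b : ℤ) : 𝓞 KK) := by
        rw [← Int.cast_mul, ← hb]; norm_num
      have e5 : ((u : ℤ) : 𝓞 KK) * ((p : ℤ) : 𝓞 KK) + ((v : ℤ) : 𝓞 KK) * ((b : ℤ) : 𝓞 KK) = 1 := by
        rw [← Int.cast_mul, ← Int.cast_mul, ← Int.cast_add, huv, Int.cast_one]
      rw [e4, eq_intCast]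
      linear_combination -(((p : ℤ) : 𝓞 KK)) * e5
    rw [e3]
    refine (P ^ 2).add_mem ((P ^ 2).mul_mem_left _ ?_) ((P ^ 2).mul_mem_left _ h6)
    rw [pow_two]
    exact Ideal.mul_mem_mul hpP hpP

/-- **G3.** -/
theorem ram : RamStmt := by
  refine ⟨nf_KK, galois_KK, finrank_KK, ?_⟩
  have h13 := dvd_discr_KK 13 (by norm_num) (by norm_num) (by norm_num) (by norm_num)
  have h19 := dvd_discr_KK 19 (by norm_num) (by norm_num) (by norm_num) (by norm_num)
  have h73 := dvd_discr_KK 73 (by norm_num) (by norm_num) (by norm_num) (by norm_num)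
  have hne : (NumberField.discr KK).natAbs ≠ 0 := Int.natAbs_ne_zero.2 (NumberField.discr_ne_zero KK)
  have hsub : ({13, 19, 73} : Finset ℕ) ⊆ (NumberField.discr KK).natAbs.primeFactors := by
    intro q hq
    simp only [Finset.mem_insert, Finset.mem_singleton] at hq
    rw [Nat.mem_primeFactors]
    rcases hq with rfl | rfl | rfl
    · exact ⟨by norm_num, Int.natCast_dvd.1 h13, hne⟩
    · exact ⟨by norm_num, Int.natCast_dvd.1 h19, hne⟩
    · exact ⟨by norm_num, Int.natCast_dvd.1 h73, hne⟩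
  calc 3 = ({13, 19, 73} : Finset ℕ).card := by decide
    _ ≤ _ := Finset.card_le_card hsub

end F8
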