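import Mathlib
import Pool.Agent.H15.F8.Basic
import Pool.Agent.H15.F8.Targets2

/-!
# MP_f8d35d_nt, module R1 (helper25): the naive height on `E(ℚ)`
-/

open WeierstrassCurve WeierstrassCurve.Affine WeierstrassCurve.Affine.Point

namespace F8

theorem Wb2 : (E⁄ℚ).b₂ = 4 := by
  simp [WeierstrassCurve.b₂, E, WeierstrassCurve.baseChange]; norm_num
theorem Wb4 : (E⁄ℚ).b₄ = -1898 := by
  simp [WeierstrassCurve.b₄, E, WeierstrassCurve.baseChange]; norm_num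
theorem Wb6 : (E⁄ℚ).b₆ = 900601 := by
  simp [WeierstrassCurve.b₆, E, WeierstrassCurve.baseChange]; norm_num
theorem Wb8 : (E⁄ℚ).b₈ = 0 := by
  simp [WeierstrassCurve.b₈, E, WeierstrassCurve.baseChange]

instance W_ell : (E⁄ℚ).IsElliptic := by
  refine ⟨?_⟩
  rw [WeierstrassCurve.Δ, Wb2, Wb4, Wb6, Wb8, isUnit_iff_ne_zero]
  norm_num

theorem addSub_eval (s t u : ℚ) :
    (fun i => ((E⁄ℚ).addSubMap i).eval ![s, t, u])
      = ![s ^ 2 + 1898 * s * u - 900601 * t * u, 2 * t * s + 4 * s * u - 1898 * t * u + 900601 * u ^ 2,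
        t ^ 2 - 4 * s * u] := by
  funext i
  unfold WeierstrassCurve.addSubMap
  rw [Wb2, Wb4, Wb6, Wb8]
  fin_cases i
  · simp; try ring
  · simp; try ring
  · simp; try ring

theorem negY_eq (x y : ℚ) : (E⁄ℚ).negY x y = -y - 2 * x + 949 := by
  simp [Affine.negY, E, WeierstrassCurve.baseChange]

theorem xRep_add {x₁ y₁ x₂ y₂ : ℚ} (h₁ : (E⁄ℚ).Nonsingular x₁ y₁) (h₂ : (E⁄ℚ).Nonsingular x₂ y₂)
    (hx : x₁ ≠ x₂) : (some x₁ y₁ h₁ + some x₂ y₂ h₂ : Pt ℚ).xRep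
      = ![((y₁ - y₂) / (x₁ - x₂)) ^ 2 + 2 * ((y₁ - y₂) / (x₁ - x₂)) - x₁ - x₂, 1] := by
  rw [add_of_X_ne hx, xRep_some, Affine.addX, slope_of_X_ne hx]
  simp [E, WeierstrassCurve.baseChange]

theorem xRep_double {x y : ℚ} (h : (E⁄ℚ).Nonsingular x y) (hw : 2 * y + 2 * x - 949 ≠ 0) :
    (some x y h + some x y h : Pt ℚ).xRep
      = ![((3 * x ^ 2 - 2 * y) / (2 * y + 2 * x - 949)) ^ 2
        + 2 * ((3 * x ^ 2 - 2 * y) / (2 * y + 2 * x - 949)) - x - x, 1] := by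
  have hy : y ≠ (E⁄ℚ).negY x y := by
    rw [negY_eq]
    intro h0
    apply hw
    linarith
  rw [add_self_of_Y_ne hy, xRep_some, Affine.addX, slope_of_Y_ne rfl hy, negY_eq]
  have e1 : y - (-y - 2 * x + 949) = 2 * y + 2 * x - 949 := by ring
  rw [e1]
  simp [E, WeierstrassCurve.baseChange]

theorem xRep_double_zero {x y : ℚ} (h : (E⁄ℚ).Nonsingular x y) (hw : 2 * y + 2 * x - 949 = 0) :
    (some x y h + some x y h : Pt ℚ) = 0 := by
  apply add_self_of_Y_eq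
  rw [negY_eq]
  linarith

theorem addSub_double (P : Pt ℚ) (hP : P ≠ 0) : ∃ c : ℚ, c ≠ 0 ∧
    (fun i => ((E⁄ℚ).addSubMap i).eval (P.sym2x P)) = c • (P + P).sym2x 0 := by
  match P, hP with
  | 0, h => exact absurd rfl h
  | .some x y h, _ =>
    have heq := (nonsingular_iff' x y).1 h
    rw [sym2x_some_some, addSub_eval]
    by_cases hw : 2 * y + 2 * x - 949 = 0
    · rw [xRep_double_zero h hw]
      refine ⟨(x * x) ^ 2 + 1898 * (x * x) - 900601 * (x + x), ?_, ?_⟩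
      · intro h0
        have h1 : (fun i => ((E⁄ℚ).addSubMap i).eval ![x * x, x + x, 1]) = 0 := by
          rw [addSub_eval]
          funext i
          fin_cases i
          · simp; linarith
          · simp; linear_combination (2 * y + 2 * x - 949) * hw - 4 * heq
          · simp; ring
        exact (E⁄ℚ).addSubMap_ne_zero (x := ![x * x, x + x, 1]) (by
          intro h2
          have := congrFun h2 2
          simp at this) h1
      · rw [sym2x_zero_zero]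
        funext i
        fin_cases i
        · simp
        · simp; linear_combination (2 * y + 2 * x - 949) * hw - 4 * heq
        · simp; ring
    · refine ⟨(2 * y + 2 * x - 949) ^ 2, pow_ne_zero _ hw, ?_⟩
      unfold sym2x
      rw [xRep_double h hw, xRep_zero]
      have hm : (3 * x ^ 2 - 2 * y) / (2 * y + 2 * x - 949) * (2 * y + 2 * x - 949)
          = 3 * x ^ 2 - 2 * y := div_mul_cancel₀ _ hw
      generalize (3 * x ^ 2 - 2 * y) / (2 * y + 2 * x - 949) = m at hm ⊢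
      funext i
      fin_cases i
      · simp
        linear_combination (8 * x + 4) * heq - (m * (2 * y + 2 * x - 949) + (3 * x ^ 2 - 2 * y)
          + 2 * (2 * y + 2 * x - 949)) * hm
      · simp
        linear_combination -4 * heq
      · simp; ring

theorem addSub_some {x₁ y₁ x₂ y₂ : ℚ} (h₁ : (E⁄ℚ).Nonsingular x₁ y₁)
    (h₂ : (E⁄ℚ).Nonsingular x₂ y₂) (hx : x₁ ≠ x₂) : ∃ c : ℚ, c ≠ 0 ∧
    (fun i => ((E⁄ℚ).addSubMap i).eval ((some x₁ y₁ h₁ : Pt ℚ).sym2x (some x₂ y₂ h₂)))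
      = c • (some x₁ y₁ h₁ + some x₂ y₂ h₂ : Pt ℚ).sym2x (some x₁ y₁ h₁ - some x₂ y₂ h₂) := by
  have heq₁ := (nonsingular_iff' x₁ y₁).1 h₁
  have heq₂ := (nonsingular_iff' x₂ y₂).1 h₂
  have hD : x₁ - x₂ ≠ 0 := sub_ne_zero.2 hx
  refine ⟨(x₁ - x₂) ^ 2, pow_ne_zero _ hD, ?_⟩
  rw [sym2x_some_some, addSub_eval]
  unfold sym2x
  have hsub : (some x₁ y₁ h₁ - some x₂ y₂ h₂ : Pt ℚ)
      = some x₁ y₁ h₁ + some x₂ _ ((nonsingular_neg _ _).2 h₂) := by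
    rw [sub_eq_add_neg]; rfl
  rw [xRep_add h₁ h₂ hx, hsub, xRep_add h₁ _ hx, negY_eq]
  have hm : (y₁ - y₂) / (x₁ - x₂) * (x₁ - x₂) = y₁ - y₂ := div_mul_cancel₀ _ hD
  have hn : (y₁ - (-y₂ - 2 * x₂ + 949)) / (x₁ - x₂) * (x₁ - x₂)
    = y₁ - (-y₂ - 2 * x₂ + 949) := div_mul_cancel₀ _ hD
  generalize (y₁ - y₂) / (x₁ - x₂) = m at hm ⊢
  generalize (y₁ - (-y₂ - 2 * x₂ + 949)) / (x₁ - x₂) = n at hn ⊢
  have hU : (x₁ - x₂) ^ 2 * (m ^ 2 + 2 * m - x₁ - x₂) = (y₁ - y₂) ^ 2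
      + 2 * (y₁ - y₂) * (x₁ - x₂) - (x₁ + x₂) * (x₁ - x₂) ^ 2 := by
    linear_combination (m * (x₁ - x₂) + (y₁ - y₂) + 2 * (x₁ - x₂)) * hm
  have hV : (x₁ - x₂) ^ 2 * (n ^ 2 + 2 * n - x₁ - x₂) = (y₁ - (-y₂ - 2 * x₂ + 949)) ^ 2
      + 2 * (y₁ - (-y₂ - 2 * x₂ + 949)) * (x₁ - x₂) - (x₁ + x₂) * (x₁ - x₂) ^ 2 := by
    linear_combination (n * (x₁ - x₂) + (y₁ - (-y₂ - 2 * x₂ + 949)) + 2 * (x₁ - x₂)) * hn
  generalize (m ^ 2 + 2 * m - x₁ - x₂) = u at hU ⊢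
  generalize (n ^ 2 + 2 * n - x₁ - x₂) = v at hV ⊢
  funext i
  fin_cases i
  · simp
    have hD2 : (x₁ - x₂) ^ 2 ≠ 0 := pow_ne_zero _ hD
    apply mul_left_cancel₀ hD2
    linear_combination -(-x₁ ^ 3 + 2 * x₁ ^ 2 * x₂ + 2 * x₁ * x₂ ^ 2 + 4 * x₁ * x₂ + 2 * x₁ * y₁
      - 1898 * x₁ - 2 * x₂ ^ 3 - 4 * x₂ ^ 2 - 4 * x₂ * y₂ + 1898 * x₂ + y₁ ^ 2 - 949 * y₁
      - 2 * y₂ ^ 2 + 1898 * y₂) * heq₁
      - (-4 * x₁ ^ 3 + 2 * x₁ ^ 2 * x₂ - 4 * x₁ ^ 2 + 2 * x₁ * x₂ ^ 2 + 4 * x₁ * x₂ + 1898 * x₁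
      - x₂ ^ 3 + 2 * x₂ * y₂ - 1898 * x₂ + y₂ ^ 2 - 949 * y₂) * heq₂
      - ((x₁ - x₂) ^ 2 * v) * hU
      - ((y₁ - y₂) ^ 2 + 2 * (y₁ - y₂) * (x₁ - x₂) - (x₁ + x₂) * (x₁ - x₂) ^ 2) * hV
  · simp
    linear_combination -2 * heq₁ - 2 * heq₂ - hU - hV
  · simp; ring

theorem xRep_ne {x₁ y₁ x₂ y₂ : ℚ} {h₁ : (E⁄ℚ).Nonsingular x₁ y₁}
    {h₂ : (E⁄ℚ).Nonsingular x₂ y₂} (hx : x₁ = x₂) :
    (some x₁ y₁ h₁ : Pt ℚ) = some x₂ y₂ h₂ ∨ (some x₁ y₁ h₁ : Pt ℚ) = - some x₂ y₂ h₂ := by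
  apply eq_or_eq_neg_of_xRep_eq_xRep
  rw [xRep_some, xRep_some, hx]

theorem addSub_zero (P : Pt ℚ) : ∃ c : ℚ, c ≠ 0 ∧
    (fun i => ((E⁄ℚ).addSubMap i).eval (P.sym2x 0)) = c • P.sym2x P := by
  refine ⟨1, one_ne_zero, ?_⟩
  match P with
  | 0 =>
    rw [sym2x_zero_zero, addSub_eval]
    funext i
    fin_cases i <;> simp
  | .some x y h =>
    rw [sym2x_some_zero, addSub_eval, sym2x_some_some]
    funext i
    fin_cases i
    · simp; ring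
    · simp; ring
    · simp

theorem addSub_all (P Q : Pt ℚ) : ∃ c : ℚ, c ≠ 0 ∧
    (fun i => ((E⁄ℚ).addSubMap i).eval (P.sym2x Q)) = c • (P + Q).sym2x (P - Q) := by
  by_cases hP : P = 0
  · subst hP
    obtain ⟨c, hc, h⟩ := addSub_zero Q
    refine ⟨c, hc, ?_⟩
    rw [sym2x_comm, h, zero_add, zero_sub, sym2x_neg_right]
  by_cases hQ : Q = 0
  · subst hQ
    obtain ⟨c, hc, h⟩ := addSub_zero P
    refine ⟨c, hc, ?_⟩
    rw [h, add_zero, sub_zero]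
  match P, hP, Q, hQ with
  | .some x₁ y₁ h₁, hP, .some x₂ y₂ h₂, hQ =>
    by_cases hx : x₁ = x₂
    · rcases xRep_ne (h₁ := h₁) (h₂ := h₂) hx with h | h
      · rw [h, sub_self]
        exact addSub_double _ hQ
      · rw [h, neg_add_cancel, sym2x_neg_left, sub_eq_add_neg, sym2x_comm 0]
        obtain ⟨c, hc, h'⟩ := addSub_double _ hQ
        refine ⟨c, hc, ?_⟩
        rw [h', ← neg_add, sym2x_neg_left]
    · exact addSub_some h₁ h₂ hx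

theorem xRep_ne_zero (P : Pt ℚ) : ![P.xRep 0, P.xRep 1] ≠ 0 := by
  cases P
  · intro h
    have := congrFun h 0
    simp [← zero_def] at this
  · intro h
    have := congrFun h 1
    simp at this

theorem xRep_eta (P : Pt ℚ) : ![P.xRep 0, P.xRep 1] = P.xRep := by
  funext i
  fin_cases i <;> rfl

/-- the naive height -/
noncomputable def hgt (P : Pt ℚ) : ℝ := Height.logHeight P.xRep

theorem hgt_nonneg (P : Pt ℚ) : 0 ≤ hgt P := Height.logHeight_nonneg _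

theorem hgt_par : ∃ C : ℝ, ∀ x y : Pt ℚ, |hgt (x + y) + hgt (x - y) - 2 * (hgt x + hgt y)| ≤ C := by
  obtain ⟨C₁, hC₁⟩ := WeierstrassCurve.abs_logHeight_addSubMap_sub_two_mul_logHeight_le (E⁄ℚ)
  obtain ⟨C₂, hC₂⟩ := Height.abs_logHeight_sym2_sub_le ℚ
  have key : ∀ x y : Pt ℚ, |Height.logHeight (x.sym2x y) - (hgt x + hgt y)| ≤ C₂ := by
    intro x y
    have h := hC₂ (xRep_ne_zero x) (xRep_ne_zero y)
    rw [xRep_eta, xRep_eta] at h
    exact h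
  refine ⟨C₁ + 3 * C₂, fun x y => ?_⟩
  obtain ⟨c, hc, h⟩ := addSub_all x y
  have h1 := hC₁ (x.sym2x y)
  rw [h, Height.logHeight_smul_eq_logHeight _ hc] at h1
  have h2 := key x y
  have h3 := key (x + y) (x - y)
  rw [abs_le] at *
  constructor <;> linarith

theorem hgt_some {x y : ℚ} (h : (E⁄ℚ).Nonsingular x y) :
    hgt (some x y h) = Height.logHeight₁ x := by
  rw [hgt, xRep_some, Height.logHeight₁_eq_logHeight]

theorem hgt_northcott : Northcott hgt := by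
  refine ⟨fun b => ?_⟩
  have hfin : {x : ℚ | Height.logHeight₁ x ≤ b}.Finite := Northcott.finite_le b
  have hfin2 : (((fun x : ℚ => ![x, 1]) '' {x : ℚ | Height.logHeight₁ x ≤ b}) ∪ {![1, 0]}).Finite :=
    (hfin.image _).union (Set.finite_singleton _)
  refine Set.Finite.of_finite_fibers (fun P : Pt ℚ => P.xRep) (hfin2.subset ?_) ?_
  · rintro _ ⟨P, hP, rfl⟩
    cases P with
    | zero => right; rfl
    | some x y h =>
      left
      refine ⟨x, ?_, (xRep_some h).symm⟩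
      change Height.logHeight₁ x ≤ b
      rw [← hgt_some h]
      exact hP
  · rintro _ ⟨P, hP, rfl⟩
    refine (Set.toFinite {P, -P}).subset ?_
    rintro Q ⟨-, hQ⟩
    exact eq_or_eq_neg_of_xRep_eq_xRep hQ

/-- **R1** -/
theorem para : ParaStmt := ⟨hgt, hgt_nonneg, hgt_par, hgt_northcott⟩

end F8
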