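import Mathlib
import Pool.Agent.H15.F8.Targets2

/-!
# MP_f8d35d_nt, module R2 (helper25): descent
-/

namespace F8

theorem h_sub_self {A : Type} [AddCommGroup A] {h : A → ℝ} {C : ℝ} (h0 : ∀ x, 0 ≤ h x)
    (hC : ∀ x y, |h (x + y) + h (x - y) - 2 * (h x + h y)| ≤ C) (x : A) :
    9 * h x - (3 * h 0 + 3 * C) ≤ h ((3 : ℕ) • x) := by
  have h1 := hC x x
  have h2 := hC (x + x) x
  have e1 : x - x = 0 := sub_self x
  have e2 : x + x - x = x := by abel
  have e3 : x + x + x = (3 : ℕ) • x := by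
    rw [succ_nsmul, two_nsmul]
  rw [e1] at h1
  rw [e2, e3] at h2
  have h3 := h0 x
  rw [abs_le] at h1 h2
  have := h0 0
  linarith [h1.1, h1.2, h2.1, h2.2]

theorem h_shift {A : Type} [AddCommGroup A] {h : A → ℝ} {C : ℝ} (h0 : ∀ x, 0 ≤ h x)
    (hC : ∀ x y, |h (x + y) + h (x - y) - 2 * (h x + h y)| ≤ C) (g x : A) :
    h x ≤ 2 * h (g + x) + (2 * h (-g) + C) := by
  have h1 := hC (g + x) (-g)
  have e : g + x + -g = x := by abel
  rw [e] at h1
  rw [abs_le] at h1
  have := h0 (g + x - -g)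
  linarith [h1.2]

theorem fin_of_equiv (A D : Type) [AddCommGroup A] [AddCommGroup D] [Finite D] (n : ℕ)
    (φ : A ≃+ (Fin n →₀ ℤ) × D) (P : A) (hP : P ≠ 0)
    (h3 : (3 : ℕ) • P = 0) (lab : A → Fin 3)
    (hlab : ∀ Q Q', lab Q = lab Q' → ∃ S : A, Q - Q' = (3 : ℕ) • S) : Finite A := by
  classical
  by_cases hn : n = 0
  · subst hn
    exact Finite.of_equiv _ φ.symm.toEquiv
  exfalso
  have hφ : (3 : ℕ) • φ P = 0 := by rw [← map_nsmul, h3, map_zero]
  have hφ0 : φ P ≠ 0 := by simpa using hP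
  have hz1 : (φ P).1 = 0 := by
    have := congrArg Prod.fst hφ
    simpa using this
  have hz2 : (φ P).2 ≠ 0 := fun h => hφ0 (Prod.ext hz1 h)
  have hz3 : (3 : ℕ) • (φ P).2 = 0 := congrArg Prod.snd hφ
  obtain ⟨t, ht⟩ : ∃ t : D, ∀ s, (3 : ℕ) • s ≠ t := by
    by_contra hcon
    push Not at hcon
    have hsurj : Function.Surjective (fun s : D => (3 : ℕ) • s) := hcon
    have hinj := Finite.injective_iff_surjective.2 hsurj
    apply hz2
    apply hinj
    simpa using hz3
  obtain ⟨m, rfl⟩ := Nat.exists_eq_succ_of_ne_zero hn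
  let v : Fin (m + 1) →₀ ℤ := Finsupp.single 0 1
  let f : Fin 2 × Fin 2 → A := fun q => φ.symm ((q.1 : ℕ) • v, (q.2 : ℕ) • t)
  have hinj : Function.Injective (fun q => lab (f q)) := by
    intro q q' hqq
    obtain ⟨S, hS⟩ := hlab _ _ hqq
    have h4 : ((q.1 : ℕ) • v - (q'.1 : ℕ) • v, (q.2 : ℕ) • t - (q'.2 : ℕ) • t)
        = (3 : ℕ) • φ S := by
      rw [← map_nsmul, ← hS, map_sub]
      simp [f]
    have h5 : (q.1 : ℕ) • v - (q'.1 : ℕ) • v = (3 : ℕ) • (φ S).1 := congrArg Prod.fst h4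
    have h6 : (q.2 : ℕ) • t - (q'.2 : ℕ) • t = (3 : ℕ) • (φ S).2 := congrArg Prod.snd h4
    have h7 := DFunLike.congr_fun h5 0
    obtain ⟨a, b⟩ := q
    obtain ⟨a', b'⟩ := q'
    have ha : a = a' := by
      have h9 : v 0 = 1 := Finsupp.single_eq_same
      rw [Finsupp.sub_apply, Finsupp.smul_apply, Finsupp.smul_apply, Finsupp.smul_apply, h9,
        nsmul_eq_mul, nsmul_eq_mul, nsmul_eq_mul] at h7
      push_cast at h7
      have e1 := a.2
      have e2 := a'.2
      apply Fin.ext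
      omega
    have hb : b = b' := by
      by_contra hne
      have h8 : (b : ℕ) = 1 ∧ (b' : ℕ) = 0 ∨ (b : ℕ) = 0 ∧ (b' : ℕ) = 1 := by
        have e1 := b.2
        have e2 := b'.2
        have e3 : (b : ℕ) ≠ b' := fun h => hne (Fin.ext h)
        omega
      rcases h8 with ⟨hb1, hb2⟩ | ⟨hb1, hb2⟩
      · simp only [hb1, hb2, one_smul, zero_smul, sub_zero] at h6
        exact ht _ h6.symm
      · simp only [hb1, hb2, one_smul, zero_smul, zero_sub] at h6
        apply ht (-(φ S).2)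
        rw [smul_neg, ← h6, neg_neg]
    rw [ha, hb]
  have := Fintype.card_le_of_injective _ hinj
  simp at this

/-- A finitely generated abelian group `A` with `#(A/3A) ≤ 3` and an element of order three is
finite. -/
theorem fin_of_fg (A : Type) [AddCommGroup A] [AddGroup.FG A] (P : A) (hP : P ≠ 0)
    (h3 : (3 : ℕ) • P = 0) (lab : A → Fin 3)
    (hlab : ∀ Q Q', lab Q = lab Q' → ∃ S : A, Q - Q' = (3 : ℕ) • S) : Finite A := by
  obtain ⟨n, ι, hι, p, hp, e, ⟨φ⟩⟩ := AddCommGroup.equiv_free_prod_directSum_zmod A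
  classical
  have h1 : ∀ i, NeZero (p i ^ e i) := fun i => ⟨pow_ne_zero _ (hp i).ne_zero⟩
  have h2 : Finite (DirectSum ι fun i => ZMod (p i ^ e i)) :=
    inferInstanceAs (Finite (Π₀ i, ZMod (p i ^ e i)))
  exact fin_of_equiv A _ n φ P hP h3 lab hlab

theorem finStmt : FinStmt := by
  intro A _ P hP h3 ⟨h, h0, ⟨C, hC⟩, hN⟩ ⟨lab, hlab⟩
  have := hN
  have hfi : (nsmulAddMonoidHom (α := A) 3).range.FiniteIndex := by
    rw [AddSubgroup.finiteIndex_iff_finite_quotient]
    have : Function.Injective (fun q : A ⧸ (nsmulAddMonoidHom (α := A) 3).range =>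
        lab (Quotient.out q)) := by
      intro q q' hqq
      obtain ⟨S, hS⟩ := hlab _ _ hqq
      rw [← Quotient.out_eq q, ← Quotient.out_eq q']
      apply Quotient.sound
      apply QuotientAddGroup.leftRel_apply.2
      refine ⟨-S, ?_⟩
      have : (3 : ℕ) • (-S) = -((3 : ℕ) • S) := smul_neg _ _
      change (3 : ℕ) • (-S) = _
      rw [this, ← hS]
      abel
    exact Finite.of_injective _ this
  have : AddGroup.FG A := AddCommGroup.fg_of_descent (n := 3) (h := h) (a := 2) (b := 9)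
    (c₀ := 3 * h 0 + 3 * C) (c := fun g => 2 * h (-g) + C) (by norm_num) (by norm_num) hfi
    (fun g x => h_shift h0 hC g x) (fun x => h_sub_self h0 hC x)
  exact fin_of_fg A P hP h3 lab hlab

end F8
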